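import Pool.Agent.helper87.FM.Spec

/-!
# MP_abccb5_co, project FM, row POE: the first moment inequality of POT
-/

set_option autoImplicit false

namespace Pool.Agent.FM

open Polynomial Matrix Pool.Agent.helper42.NS Pool.Agent.FS

theorem POE : POE_stmt := by
  classical
  intro Q X t₀ m X₀ β ht hβ hX₀ hX hbase hstep
  have hnonneg : ∀ k : ℕ, (0 : ℝ) ≤ X₀ / 2 ^ k + 2 * β := fun k => by positivity
  have key : ∀ k : ℕ, t₀ + k ≤ m →
      ∑ H ∈ POT_s Q (t₀ + k), X (t₀ + k) H ≤
        2 ^ ((t₀ + k).choose 2) * (X₀ / 2 ^ k + 2 * β) := by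
    intro k
    induction k with
    | zero =>
      intro _
      show ∑ H ∈ POT_s Q t₀, X t₀ H ≤ 2 ^ (t₀.choose 2) * (X₀ / 2 ^ 0 + 2 * β)
      have h1 : ∑ H ∈ POT_s Q t₀, X t₀ H ≤ ∑ H ∈ POT_s Q t₀, X₀ := by
        apply Finset.sum_le_sum
        intro H hH
        rw [POT_mem] at hH
        exact hbase H hH.1 hH.2
      rw [Finset.sum_const, nsmul_eq_mul] at h1
      have h2 := mul_le_mul_of_nonneg_right (POT_card Q t₀) hX₀
      have h3 : (2 : ℝ) ^ (t₀.choose 2) * X₀ ≤ 2 ^ (t₀.choose 2) * (X₀ / 2 ^ 0 + 2 * β) := by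
        apply mul_le_mul_of_nonneg_left _ (by positivity)
        rw [pow_zero, div_one]
        linarith
      exact (h1.trans h2).trans h3
    | succ k ih =>
      intro hk
      have ih' := ih (by omega)
      obtain ⟨t, htd⟩ : ∃ t, t = t₀ + k := ⟨_, rfl⟩
      have e : t₀ + (k + 1) = t + 1 := by omega
      rw [← htd] at ih'
      rw [e, POT_sum]
      have h1 : ∀ H ∈ POT_s Q t,
          ∑ b ∈ Finset.univ.filter (fun b : Fin t → Bool => Hered Q (t + 1) (bord H (ind b))),
            X (t + 1) (bord H (ind b)) ≤ 2 ^ t * (X t H / 2 + β) := by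
        intro H hH
        rw [POT_mem] at hH
        apply hstep t (by omega) (by omega) H hH.1 hH.2
        intro b hb
        exact (Finset.mem_filter.1 hb).2
      refine (Finset.sum_le_sum h1).trans ?_
      rw [← Finset.mul_sum, Finset.sum_add_distrib, ← Finset.sum_div, Finset.sum_const,
        nsmul_eq_mul]
      have hc : (t + 1).choose 2 = t.choose 2 + t := by
        rw [Nat.choose_succ_succ' t 1, Nat.choose_one_right, add_comm]
      have h2 := mul_le_mul_of_nonneg_right (POT_card Q t) hβ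
      have h3 : (∑ H ∈ POT_s Q t, X t H) / 2 + ((POT_s Q t).card : ℝ) * β ≤
          2 ^ (t.choose 2) * (X₀ / 2 ^ (k + 1) + 2 * β) := by
        have h4 : (2 : ℝ) ^ (t.choose 2) * (X₀ / 2 ^ (k + 1) + 2 * β) =
            2 ^ (t.choose 2) * (X₀ / 2 ^ k + 2 * β) / 2 + 2 ^ (t.choose 2) * β := by
          rw [pow_succ (2 : ℝ) k]
          field_simp
          ring
        rw [h4]
        linarith
      rw [hc, pow_add (2 : ℝ) (t.choose 2) t]
      calc (2 : ℝ) ^ t * ((∑ H ∈ POT_s Q t, X t H) / 2 + ((POT_s Q t).card : ℝ) * β) ≤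
          2 ^ t * (2 ^ (t.choose 2) * (X₀ / 2 ^ (k + 1) + 2 * β)) :=
            mul_le_mul_of_nonneg_left h3 (by positivity)
        _ = 2 ^ (t.choose 2) * 2 ^ t * (X₀ / 2 ^ (k + 1) + 2 * β) := by ring
  have h1 := key (m - t₀) (by omega)
  have hm : t₀ + (m - t₀) = m := by omega
  rw [hm] at h1
  exact h1

end Pool.Agent.FM
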